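import Pool.Agent.R482.KB.Asm
import Pool.Agent.R482.KB.S1
import Pool.Agent.R482.KB.S2
import Pool.Agent.R482.KB.S3
import Pool.Agent.R482.KB.S4

/-!
# The Schnirelmann constant of the reversed primes is at most a constant times `log b`

There is an absolute constant `C` such that in every base `b ≥ 2` every sufficiently large integer is
a sum of at most `C log b` reversed primes, that is, `K_b` is finite and `K_b ≤ C log b`.

The proof. Let `X = b ^ L`, let `A` be the set of the reversed primes with `L` digits, and let
`q = b (b ^ 2 - 1)`.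

* `R482.KB.sup_bound`: for every `α` the sum over a `b ^ (-j)`-separated set of `θ` of
  `|∑_{n < X} e (α rev n + θ n)|` is at most `X (6 + 2 log b) ^ j`. With the second moment this bounds
  the fourth moment of the part of the expansion of the majorant of Selberg's sieve in which the
  denominators have a given size, up to `X ^ (1 / 4)` (`R482.KB.block_large`). For the small
  denominators the bound for the fourth moment in `R456.RP` (helper456) is used. The majorant has the
  level `X ^ (1 / 4)`, with an exponent which does not depend on `b`, and so the additive energy of `A`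
  is at most `C X ^ 3 (q / φ (q)) ^ 4 / (log X) ^ 4`.
* So `A + A` has at least `c (φ (q) / q) ^ 4 X` elements (`R482.KB.dense`); the density is at least
  `c' / log b` (`R482.KB.totientBound`).
* A rising sun lemma gives a point `M < 2 X` from which on all the initial segments up to `2 X` of
  `A + A` are dense; after adding the reversed primes `2` or `3` Schnirelmann's theorem applies in this
  window (`R482.KB.covering`): all the integers of an interval of length `2 X` are sums of `O (log b)`
  reversed primes.
* The sums of `O (log b)` reversed primes with `L + 1` digits with prescribed leading digit and second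
  digit `0` reach this interval from every large integer, as every `t ≤ K b` is a sum of
  `2 K + O (log b)` digits coprime to `b` (`R482.KB.digitSums`).
-/

set_option autoImplicit false

namespace Pool.Agent.Results.MP_eac634_nt.LogBound

/-- `r` is a reversed prime in base `b`: for some prime `p = ∑_{i < L} ε_i b ^ i` with `L` digits in
base `b` one has `r = ∑_{i < L} ε_i b ^ (L - 1 - i)`. -/
def ReversedPrime (b r : ℕ) : Prop :=
  ∃ p : ℕ, p.Prime ∧ r = Nat.ofDigits b (Nat.digits b p).reverse

/-- Every sufficiently large integer is a sum of at most `K` reversed primes in base `b`,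
repetitions allowed. -/
def IsOrder (b K : ℕ) : Prop := ∃ N₀ : ℕ, ∀ N : ℕ, N₀ ≤ N →
  ∃ l : List ℕ, l.length ≤ K ∧ (∀ r ∈ l, ReversedPrime b r) ∧ l.sum = N

/-- `K_b`: the least integer `K ≥ 2` such that every sufficiently large integer is a sum of at most
`K` reversed primes in base `b`, and `∞` if there is none. -/
noncomputable def Kb (b : ℕ) : ℕ∞ := ⨅ K ∈ {K : ℕ | 2 ≤ K ∧ IsOrder b K}, (K : ℕ∞)

/-- There is an absolute constant `C > 0` such that for every base `b ≥ 2` the number `K_b` is finite
(and it is attained) and `K_b ≤ C log b`. -/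
theorem result : ∃ C : ℝ, 0 < C ∧ ∀ b : ℕ, 2 ≤ b →
    ∃ k : ℕ, Kb b = k ∧ 2 ≤ k ∧ IsOrder b k ∧ (k : ℝ) ≤ C * Real.log b := by
  obtain ⟨C, hC, h⟩ := Pool.Agent.R482.KB.all_bases Pool.Agent.R482.KB.primesWithDigits
    Pool.Agent.R482.KB.covering Pool.Agent.R482.KB.digitSums Pool.Agent.R482.KB.totientBound
  refine ⟨C, hC, fun b hb => ?_⟩
  obtain ⟨K, hK1, hK2, hK3⟩ := h b hb
  have hmem : K ∈ {K : ℕ | 2 ≤ K ∧ IsOrder b K} := ⟨hK1, hK3⟩
  have hs := Nat.sInf_mem (⟨K, hmem⟩ : {K : ℕ | 2 ≤ K ∧ IsOrder b K}.Nonempty)
  refine ⟨sInf {K : ℕ | 2 ≤ K ∧ IsOrder b K}, ?_, hs.1, hs.2, ?_⟩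
  · unfold Kb
    apply le_antisymm
    · exact iInf₂_le _ hs
    · exact le_iInf₂ fun K' hK' => Nat.cast_le.2 (Nat.sInf_le hK')
  · have h1 : ((sInf {K : ℕ | 2 ≤ K ∧ IsOrder b K} : ℕ) : ℝ) ≤ K := by
      exact_mod_cast Nat.sInf_le hmem
    exact h1.trans hK2

end Pool.Agent.Results.MP_eac634_nt.LogBound
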